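import Mathlib

/-!
# MP_0edf05: the product of average distance and girth

For every connected graph `G` on `n ≥ 3` vertices containing a cycle, `l(G) * g(G)` is at most its
value on `C_n`, with equality only for `C_n`.
-/

namespace Pool.Agent.Results.MP_0edf05_co.ProductBound

open Finset SimpleGraph

/-- The average distance of `G`: the mean of `d(u,v)` over the unordered pairs of distinct vertices
(the sum over ordered pairs divided by `n (n-1)`). -/
noncomputable def avgDist {V : Type*} [Fintype V] (G : SimpleGraph V) : ℝ :=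
  (∑ u, ∑ v, (G.dist u v : ℝ)) / ((Fintype.card V : ℝ) * ((Fintype.card V : ℝ) - 1))

/-- The sum of distances over ordered pairs. -/
noncomputable def dsum {V : Type*} [Fintype V] (G : SimpleGraph V) : ℕ := ∑ u, ∑ v, G.dist u v

/-! ### Arithmetic -/

lemma sum_min (g : ℕ) : ∑ t ∈ range g, min t (g - t) = g ^ 2 / 4 := by
  induction g using Nat.twoStepInduction with
  | zero => simp
  | one => simp
  | more g ih _ =>
    rw [Finset.sum_range_succ']
    have h1 : ∀ t ∈ range (g + 1), min (t + 1) (g + 2 - (t + 1)) = min t (g - t) + 1 := by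
      intro t ht
      rw [Finset.mem_range] at ht
      omega
    rw [Finset.sum_congr rfl h1, Finset.sum_add_distrib, Finset.sum_range_succ, ih]
    simp only [Finset.sum_const, Finset.card_range, smul_eq_mul, mul_one, Nat.sub_self,
      Nat.min_zero, zero_min, add_zero]
    have h2 : (g + 2) ^ 2 = g ^ 2 + 4 * (g + 1) := by ring
    rw [h2, Nat.add_mul_div_left _ _ (by norm_num)]

/-- Twice the bound for the distance sum of one vertex. -/
def s2 (g k : ℕ) : ℕ := k * (2 * g + k - 1) + 2 * (g ^ 2 / 4)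

lemma s2_succ (g k : ℕ) (hg : 3 ≤ g) : s2 g (k + 1) = s2 g k + 2 * (g + k) := by
  unfold s2
  obtain ⟨m, hm⟩ : ∃ m, 2 * g + k = m + 1 := ⟨2 * g + k - 1, by omega⟩
  rw [show 2 * g + (k + 1) - 1 = m + 1 by omega, show 2 * g + k - 1 = m by omega]
  have : 2 * (g + k) = m + 1 + k := by omega
  rw [this]
  ring

/-- The bound for the total distance sum. -/
def E (g : ℕ) : ℕ → ℕ
  | 0 => g * (g ^ 2 / 4)
  | k + 1 => E g k + s2 g (k + 1)

lemma step_lt (g k : ℕ) (hg : 3 ≤ g) :
    g * s2 g (k + 1) + (g + k) ^ 2 * ((g + k) ^ 2 / 4) <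
      (g + k + 1) ^ 2 * ((g + k + 1) ^ 2 / 4) := by
  have h1 : 4 * (g ^ 2 / 4) ≤ g ^ 2 := Nat.mul_div_le _ _
  have h2 : s2 g (k + 1) = (k + 1) * (2 * g + k) + 2 * (g ^ 2 / 4) := by
    unfold s2
    rw [show 2 * g + (k + 1) - 1 = 2 * g + k by omega]
  have h3 : 2 * s2 g (k + 1) ≤ 2 * ((k + 1) * (2 * g + k)) + g ^ 2 := by
    rw [h2]; omega
  obtain ⟨n, hn⟩ : ∃ n, n = g + k := ⟨_, rfl⟩
  rw [← hn]
  have h4 : n ^ 2 * (n ^ 2 / 4) * 4 + (4 * n ^ 3 + 5 * n ^ 2 + 2 * n) ≤
      (n + 1) ^ 2 * ((n + 1) ^ 2 / 4) * 4 := by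
    rcases Nat.even_or_odd n with ⟨m, hm⟩ | ⟨m, hm⟩
    · have h5 : n ^ 2 / 4 = m ^ 2 := by
        rw [hm, show (m + m) ^ 2 = 4 * m ^ 2 by ring]; omega
      have h6 : (n + 1) ^ 2 / 4 = m ^ 2 + m := by
        rw [hm, show (m + m + 1) ^ 2 = 4 * (m ^ 2 + m) + 1 by ring]; omega
      rw [h5, h6, hm]
      apply le_of_eq
      ring
    · have h5 : n ^ 2 / 4 = m ^ 2 + m := by
        rw [hm, show (2 * m + 1) ^ 2 = 4 * (m ^ 2 + m) + 1 by ring]; omega
      have h6 : (n + 1) ^ 2 / 4 = (m + 1) ^ 2 := by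
        rw [hm, show (2 * m + 1 + 1) ^ 2 = 4 * (m + 1) ^ 2 by ring]; omega
      rw [h5, h6, hm]
      nlinarith
  have h7 : 4 * (g * s2 g (k + 1)) < 4 * n ^ 3 + 5 * n ^ 2 + 2 * n := by
    have h8 : 4 * (g * s2 g (k + 1)) ≤ g * (4 * ((k + 1) * (2 * g + k)) + 2 * g ^ 2) := by
      nlinarith
    refine lt_of_le_of_lt h8 ?_
    rw [hn]
    nlinarith [mul_pos (show 0 < g by omega) (show 0 < g by omega), mul_nonneg (Nat.zero_le g) (Nat.zero_le k),
      mul_nonneg (Nat.zero_le (g * k)) (Nat.zero_le k), mul_nonneg (Nat.zero_le (g * k)) (Nat.zero_le g),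
      mul_nonneg (Nat.zero_le (k * k)) (Nat.zero_le k),
      Nat.mul_le_mul_right (g * g) hg]
  omega

lemma gE_le (g k : ℕ) (hg : 3 ≤ g) : g * E g k ≤ (g + k) ^ 2 * ((g + k) ^ 2 / 4) := by
  induction k with
  | zero =>
    simp only [E, add_zero]
    apply le_of_eq
    ring
  | succ k ih =>
    have := step_lt g k hg
    simp only [E]
    rw [Nat.mul_add, ← add_assoc g k 1]
    omega

lemma gE_lt (g k : ℕ) (hg : 3 ≤ g) (hk : 1 ≤ k) :
    g * E g k < (g + k) ^ 2 * ((g + k) ^ 2 / 4) := by
  obtain ⟨j, rfl⟩ : ∃ j, k = j + 1 := ⟨k - 1, by omega⟩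
  have h1 := gE_le g j hg
  have h2 := step_lt g j hg
  simp only [E]
  rw [Nat.mul_add, ← add_assoc g j 1]
  omega

/-! ### Cycles -/

/-- `c` runs around a cycle of length `g` of `G`. -/
structure Cyc {V : Type*} (G : SimpleGraph V) (g : ℕ) (c : ℕ → V) : Prop where
  per : ∀ i, c (i + g) = c i
  adj : ∀ i, G.Adj (c i) (c (i + 1))
  inj : ∀ i j, i < g → j < g → c i = c j → i = j

section cyc

variable {V : Type*} {G : SimpleGraph V} {g : ℕ} {c : ℕ → V}

lemma exists_cyc {u : V} (p : G.Walk u u) (hp : p.IsCycle) : ∃ c, Cyc G p.length c := by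
  have h3 := hp.three_le_length
  refine ⟨fun i => p.getVert (i % p.length), ?_, ?_, ?_⟩
  · intro i
    simp
  · intro i
    have hlt : i % p.length < p.length := Nat.mod_lt _ (by omega)
    have hadj := p.adj_getVert_succ hlt
    rcases Nat.lt_or_ge (i % p.length + 1) p.length with h | h
    · have : (i + 1) % p.length = i % p.length + 1 := by
        rw [Nat.add_mod, Nat.mod_eq_of_lt (show 1 < p.length by omega), Nat.mod_eq_of_lt h]
      simp only [this]
      exact hadj
    · have h1 : i % p.length + 1 = p.length := by omega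
      have : (i + 1) % p.length = 0 := by
        rw [Nat.add_mod, Nat.mod_eq_of_lt (show 1 < p.length by omega), h1, Nat.mod_self]
      simp only [this, Walk.getVert_zero]
      rw [h1, Walk.getVert_length] at hadj
      exact hadj
  · intro i j hi hj hij
    simp only [Nat.mod_eq_of_lt hi, Nat.mod_eq_of_lt hj] at hij
    exact hp.getVert_injOn' (by simp only [Set.mem_ofPred_eq]; omega)
      (by simp only [Set.mem_ofPred_eq]; omega) hij

lemma Cyc.mul (h : Cyc G g c) (i k : ℕ) : c (i + g * k) = c i := by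
  induction k with
  | zero => simp
  | succ k ih => rw [Nat.mul_succ, ← add_assoc, h.per, ih]

lemma Cyc.mod (h : Cyc G g c) (i : ℕ) : c (i % g) = c i := by
  conv_rhs => rw [← Nat.mod_add_div i g, h.mul]

lemma Cyc.inj' (h : Cyc G g c) (i j k : ℕ) (hj : j < g) (hk : k < g)
    (he : c (i + j) = c (i + k)) : j = k := by
  rw [← h.mod (i + j), ← h.mod (i + k)] at he
  have hg : 0 < g := by omega
  have h1 := h.inj _ _ (Nat.mod_lt _ hg) (Nat.mod_lt _ hg) he
  have h2 : i + j ≡ i + k [MOD g] := h1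
  have h3 := Nat.ModEq.add_left_cancel' i h2
  have h4 : j % g = k % g := h3
  rwa [Nat.mod_eq_of_lt hj, Nat.mod_eq_of_lt hk] at h4

lemma Cyc.dist_le (h : Cyc G g c) (hG : G.Connected) (i t : ℕ) :
    G.dist (c i) (c (i + t)) ≤ t := by
  induction t with
  | zero => simp
  | succ t ih =>
    have h1 : G.dist (c (i + t)) (c (i + t + 1)) = 1 := dist_eq_one_iff_adj.2 (h.adj _)
    have h2 := hG.dist_triangle (u := c i) (v := c (i + t)) (w := c (i + t + 1))
    rw [← add_assoc]
    omega

lemma Cyc.dist_le' (h : Cyc G g c) (hG : G.Connected) (i t : ℕ) (ht : t ≤ g) :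
    G.dist (c i) (c (i + t)) ≤ min t (g - t) := by
  refine le_min (h.dist_le hG i t) ?_
  have h1 := h.dist_le hG (i + t) (g - t)
  rw [show i + t + (g - t) = i + g by omega, h.per, dist_comm] at h1
  exact h1

lemma Cyc.image_eq [Fintype V] [DecidableEq V] (h : Cyc G g c) (hV : Fintype.card V = g) (i : ℕ) :
    (range g).image (fun t => c (i + t)) = univ := by
  apply Finset.eq_univ_of_card
  rw [Finset.card_image_of_injOn, Finset.card_range, hV]
  intro a ha b hb hab
  rw [Finset.coe_range, Set.mem_Iio] at ha hb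
  exact h.inj' i a b ha hb hab

lemma Cyc.sum_eq [Fintype V] (h : Cyc G g c) (hV : Fintype.card V = g) (i : ℕ) (F : V → ℕ) :
    ∑ y, F y = ∑ t ∈ range g, F (c (i + t)) := by
  classical
  rw [← h.image_eq hV i, Finset.sum_image]
  intro a ha b hb hab
  rw [Finset.coe_range, Set.mem_Iio] at ha hb
  exact h.inj' i a b ha hb hab

lemma Cyc.surj [Fintype V] (h : Cyc G g c) (hV : Fintype.card V = g) (x : V) :
    ∃ i, i < g ∧ c i = x := by
  classical
  have h1 := h.image_eq hV 0
  have h2 : x ∈ (range g).image (fun t => c (0 + t)) := by rw [h1]; exact Finset.mem_univ _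
  rw [Finset.mem_image] at h2
  obtain ⟨i, hi, hx⟩ := h2
  rw [Finset.mem_range] at hi
  exact ⟨i, hi, by rw [← hx, zero_add]⟩

lemma Cyc.base [Fintype V] (h : Cyc G g c) (hG : G.Connected) (hV : Fintype.card V = g) (x : V) :
    ∑ y, G.dist x y ≤ g ^ 2 / 4 := by
  obtain ⟨i, -, rfl⟩ := h.surj hV x
  rw [h.sum_eq hV i, ← sum_min]
  refine Finset.sum_le_sum fun t ht => ?_
  rw [Finset.mem_range] at ht
  exact h.dist_le' hG i t ht.le

/-- There is a vertex outside the cycle whose deletion leaves a connected graph. -/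
lemma exists_nonCut [Fintype V] (h : Cyc G g c) (hG : G.Connected) (hg : 0 < g)
    (hV : g < Fintype.card V) : ∃ y, (∀ i, c i ≠ y) ∧ (G.induce {u | u ≠ y}).Connected := by
  classical
  have hne : (range g).Nonempty := ⟨0, by simpa using hg⟩
  let d : V → ℕ := fun u => (range g).inf' hne (fun i => G.dist (c i) u)
  have h1 : ∀ i u, d u ≤ G.dist (c i) u := by
    intro i u
    rw [← h.mod i]
    exact Finset.inf'_le _ (Finset.mem_range.2 (Nat.mod_lt _ hg))
  have h2 : ∀ u, ∃ i, d u = G.dist (c i) u := by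
    intro u
    obtain ⟨i, -, hi⟩ := Finset.exists_mem_eq_inf' hne (fun i => G.dist (c i) u)
    exact ⟨i, hi⟩
  have hz : ∃ z, ∀ i, c i ≠ z := by
    by_contra hcon
    push Not at hcon
    have hsub : (univ : Finset V) ⊆ (range g).image c := by
      intro z _
      obtain ⟨i, hi⟩ := hcon z
      rw [Finset.mem_image]
      exact ⟨i % g, Finset.mem_range.2 (Nat.mod_lt _ hg), by rw [h.mod, hi]⟩
    have h3 := Finset.card_le_card hsub
    have h4 := Finset.card_image_le (s := range g) (f := c)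
    rw [Finset.card_univ] at h3
    rw [Finset.card_range] at h4
    omega
  obtain ⟨z, hz⟩ := hz
  have hdz : 0 < d z := by
    obtain ⟨i, hi⟩ := h2 z
    rw [hi]
    exact hG.pos_dist_of_ne (hz i)
  obtain ⟨y, -, hy⟩ := Finset.exists_max_image univ d ⟨z, Finset.mem_univ _⟩
  have hyc : ∀ i, c i ≠ y := by
    intro i hi
    have h3 := h1 i y
    rw [hi, dist_self] at h3
    have h4 := hy z (Finset.mem_univ _)
    omega
  refine ⟨y, hyc, ?_⟩
  have hreach0 : ∀ i, (G.induce {u | u ≠ y}).Reachable ⟨c 0, hyc 0⟩ ⟨c i, hyc i⟩ := by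
    intro i
    induction i with
    | zero => exact Reachable.refl _
    | succ i ih =>
      refine ih.trans (Adj.reachable ?_)
      exact h.adj i
  have hreach : ∀ k, ∀ u, ∀ hu : u ≠ y, d u = k →
      (G.induce {u | u ≠ y}).Reachable ⟨c 0, hyc 0⟩ ⟨u, hu⟩ := by
    intro k
    induction k with
    | zero =>
      intro u hu hk
      obtain ⟨i, hi⟩ := h2 u
      rw [hk] at hi
      have h3 : c i = u := (hG.dist_eq_zero_iff).1 hi.symm
      subst h3
      exact hreach0 i
    | succ k ih =>
      intro u hu hk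
      obtain ⟨i, hi⟩ := h2 u
      rw [hk, dist_comm] at hi
      obtain ⟨p, hp⟩ := hG.exists_walk_length_eq_dist u (c i)
      rw [← hi] at hp
      cases p with
      | nil => simp at hp
      | @cons _ w _ hadj q =>
        rw [Walk.length_cons] at hp
        have h3 : G.dist w (c i) ≤ k := (SimpleGraph.dist_le q).trans (by omega)
        have h4 := h1 i w
        rw [dist_comm] at h4
        have h5 := h1
        have hyu := hy u (Finset.mem_univ _)
        have hwy : w ≠ y := by
          intro he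
          rw [he] at h4 h3
          omega
        have h6 : k ≤ d w := by
          obtain ⟨j, hj⟩ := h2 w
          have h7 := h1 j u
          have h8 := hG.dist_triangle (u := c j) (v := w) (w := u)
          have h9 : G.dist w u = 1 := dist_eq_one_iff_adj.2 hadj.symm
          omega
        have h7 := ih w hwy (by omega)
        refine h7.trans (Adj.reachable ?_)
        exact hadj.symm
  have : Nonempty ↥({u | u ≠ y} : Set V) := ⟨⟨c 0, hyc 0⟩⟩
  refine SimpleGraph.Connected.mk fun u v => ?_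
  exact (hreach _ u.1 u.2 rfl).symm.trans (hreach _ v.1 v.2 rfl)

end cyc

lemma dist_induce_le {V : Type*} {G : SimpleGraph V} (s : Set V) (hs : (G.induce s).Connected)
    (u v : s) : G.dist u v ≤ (G.induce s).dist u v := by
  obtain ⟨w, hw⟩ := hs.exists_walk_length_eq_dist u v
  have h1 := dist_le (w.map (SimpleGraph.Embedding.induce s).toHom)
  rw [Walk.length_map, hw] at h1
  exact h1

lemma dist_lt_card {V : Type*} [Fintype V] {G : SimpleGraph V} (hG : G.Connected) (u v : V) :
    G.dist u v < Fintype.card V := by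
  obtain ⟨p, hp, hl⟩ := hG.exists_path_of_dist u v
  rw [← hl]
  exact hp.length_lt

theorem main (g : ℕ) (hg : 3 ≤ g) : ∀ k : ℕ, ∀ (V : Type) [Fintype V] (G : SimpleGraph V)
    (c : ℕ → V), G.Connected → Cyc G g c → Fintype.card V = g + k →
    (∀ x, 2 * ∑ y, G.dist x y ≤ s2 g k) ∧ dsum G ≤ E g k := by
  intro k
  induction k with
  | zero =>
    intro V _ G c hG hc hV
    have h1 := hc.base hG hV
    refine ⟨fun x => ?_, ?_⟩
    · have := h1 x
      unfold s2
      omega
    · unfold dsum
      calc ∑ u, ∑ v, G.dist u v ≤ ∑ u : V, g ^ 2 / 4 := Finset.sum_le_sum fun u _ => h1 u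
        _ = g * (g ^ 2 / 4) := by
          rw [Finset.sum_const, smul_eq_mul, Finset.card_univ, hV, add_zero]
  | succ k ih =>
    intro V _ G c hG hc hV
    classical
    obtain ⟨y, hy, hH⟩ := exists_nonCut hc hG (by omega) (by omega)
    have hcard : Fintype.card {u : V | u ≠ y} = g + k := by
      have h1 : Fintype.card {u : V // u ≠ y} = Fintype.card V - 1 := by
        rw [Fintype.card_subtype_compl, Fintype.card_subtype_eq]
      have h2 : Fintype.card {u : V | u ≠ y} = Fintype.card {u : V // u ≠ y} :=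
        Fintype.card_congr (Equiv.refl _)
      omega
    have hc' : Cyc (G.induce {u | u ≠ y}) g (fun i => ⟨c i, hy i⟩) := by
      refine ⟨fun i => Subtype.ext (hc.per i), fun i => hc.adj i, fun i j hi hj hij => ?_⟩
      exact hc.inj i j hi hj (congrArg Subtype.val hij)
    obtain ⟨ih1, ih2⟩ := ih _ (G.induce {u | u ≠ y}) _ hH hc' hcard
    have hsplit : ∀ F : V → ℕ, ∑ z, F z = F y + ∑ z : {u : V | u ≠ y}, F z := fun F =>
      Fintype.sum_eq_add_sum_subtype_ne F y
    have hle : ∀ x z : {u : V | u ≠ y}, G.dist x z ≤ (G.induce {u | u ≠ y}).dist x z :=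
      fun x z => dist_induce_le _ hH x z
    have hA : ∀ x, 2 * ∑ z, G.dist x z ≤ s2 g (k + 1) := by
      intro x
      rw [s2_succ g k hg]
      by_cases hx : x = y
      · subst hx
        rw [hsplit, dist_self, zero_add]
        have : Nontrivial V := Fintype.one_lt_card_iff_nontrivial.1 (by omega)
        obtain ⟨x', hx'⟩ := hG.preconnected.exists_adj_of_nontrivial x
        have hx'' : x' ≠ x := hx'.ne'
        have h1 := ih1 ⟨x', hx''⟩
        have h2 : ∑ z : {u : V | u ≠ x}, G.dist x z ≤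
            ∑ z : {u : V | u ≠ x}, (1 + (G.induce {u | u ≠ x}).dist ⟨x', hx''⟩ z) := by
          refine Finset.sum_le_sum fun z _ => ?_
          have h3 := hG.dist_triangle (u := x) (v := x') (w := (z : V))
          have h4 : G.dist x x' = 1 := dist_eq_one_iff_adj.2 hx'
          have h5 := hle ⟨x', hx''⟩ z
          simp only at h5
          omega
        rw [Finset.sum_add_distrib, Finset.sum_const, smul_eq_mul, mul_one, Finset.card_univ,
          hcard] at h2
        omega
      · rw [hsplit]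
        have h1 := ih1 ⟨x, hx⟩
        have h2 := dist_lt_card hG x y
        have h3 : ∑ z : {u : V | u ≠ y}, G.dist x z ≤
            ∑ z : {u : V | u ≠ y}, (G.induce {u | u ≠ y}).dist ⟨x, hx⟩ z :=
          Finset.sum_le_sum fun z _ => hle ⟨x, hx⟩ z
        omega
    refine ⟨hA, ?_⟩
    have h1 : dsum G = 2 * (∑ z, G.dist y z) + ∑ x : {u : V | u ≠ y}, ∑ z : {u : V | u ≠ y},
        G.dist x z := by
      unfold dsum
      rw [hsplit]
      have h2 : ∀ x : V, ∑ z, G.dist x z = G.dist x y + ∑ z : {u : V | u ≠ y}, G.dist x z :=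
        fun x => hsplit _
      have h3 : ∑ x : {u : V | u ≠ y}, ∑ z, G.dist x z = ∑ x : {u : V | u ≠ y}, G.dist x y +
          ∑ x : {u : V | u ≠ y}, ∑ z : {u : V | u ≠ y}, G.dist x z := by
        rw [← Finset.sum_add_distrib]
        exact Finset.sum_congr rfl fun x _ => h2 x
      have h4 : ∑ x : {u : V | u ≠ y}, G.dist x y = ∑ z, G.dist y z := by
        rw [hsplit (fun z => G.dist y z), dist_self, zero_add]
        exact Finset.sum_congr rfl fun x _ => dist_comm
      rw [h3, h4]
      ring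
    have h2 : ∑ x : {u : V | u ≠ y}, ∑ z : {u : V | u ≠ y}, G.dist x z ≤
        dsum (G.induce {u | u ≠ y}) :=
      Finset.sum_le_sum fun x _ => Finset.sum_le_sum fun z _ => hle x z
    rw [h1]
    have h3 := hA y
    simp only [E]
    omega

/-! ### The cycle graph -/

lemma walk_lev {V : Type*} {H : SimpleGraph V} (f : V → ℤ)
    (hadj : ∀ x y, H.Adj x y → |f x - f y| ≤ 1) {x y : V} (p : H.Walk x y) :
    |f x - f y| ≤ (p.length : ℤ) := by
  induction p with
  | nil => simp
  | cons h p ih =>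
    have h1 := hadj _ _ h
    simp only [Walk.length_cons]
    push_cast
    rw [abs_le] at *
    omega

lemma fin_sub_val {n : ℕ} (a b : Fin n) :
    (b ≤ a ∧ (a - b).val = a.val - b.val) ∨ (a < b ∧ (a - b).val = n + a.val - b.val) := by
  rcases le_or_gt b a with h | h
  · exact Or.inl ⟨h, Fin.coe_sub_iff_le.2 h⟩
  · exact Or.inr ⟨h, Fin.coe_sub_iff_lt.2 h⟩

lemma cycle_dist_ge (n : ℕ) (x y : Fin (n + 3)) :
    min (y - x).val (n + 3 - (y - x).val) ≤ (cycleGraph (n + 3)).dist x y := by
  have hconn : (cycleGraph (n + 3)).Connected := cycleGraph_connected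
  obtain ⟨w, hw⟩ := hconn.exists_walk_length_eq_dist x y
  have hadj : ∀ a b : Fin (n + 3), (cycleGraph (n + 3)).Adj a b →
      |((min (a - x).val (n + 3 - (a - x).val) : ℕ) : ℤ) -
        ((min (b - x).val (n + 3 - (b - x).val) : ℕ) : ℤ)| ≤ 1 := by
    intro a b hab
    have h1 := cycleGraph_adj'.1 hab
    have ha := fin_sub_val a x
    have hb := fin_sub_val b x
    have hab1 := fin_sub_val a b
    have hba1 := fin_sub_val b a
    have h2 := a.2
    have h3 := b.2
    have h4 := x.2
    simp only [Fin.le_def, Fin.lt_def] at ha hb hab1 hba1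
    rw [abs_le]
    omega
  have h1 := walk_lev _ hadj w
  rw [hw, sub_self, abs_le] at h1
  have h2 : ((0 : Fin (n + 3)) : ℕ) = 0 := rfl
  rw [h2] at h1
  omega

lemma cycle_dsum (n : ℕ) : (n + 3) * ((n + 3) ^ 2 / 4) ≤ dsum (cycleGraph (n + 3)) := by
  unfold dsum
  have h1 : ∀ x : Fin (n + 3), (n + 3) ^ 2 / 4 ≤ ∑ y, (cycleGraph (n + 3)).dist x y := by
    intro x
    calc (n + 3) ^ 2 / 4 = ∑ t ∈ range (n + 3), min t (n + 3 - t) := (sum_min _).symm
      _ = ∑ t : Fin (n + 3), min t.val (n + 3 - t.val) :=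
          (Fin.sum_univ_eq_sum_range (fun t => min t (n + 3 - t)) (n + 3)).symm
      _ = ∑ y : Fin (n + 3), min (y - x).val (n + 3 - (y - x).val) :=
          (Equiv.sum_comp (Equiv.subRight x)
            (fun t : Fin (n + 3) => min t.val (n + 3 - t.val))).symm
      _ ≤ _ := Finset.sum_le_sum fun y _ => cycle_dist_ge n x y
  calc (n + 3) * ((n + 3) ^ 2 / 4) = ∑ x : Fin (n + 3), (n + 3) ^ 2 / 4 := by
        rw [Finset.sum_const, smul_eq_mul, Finset.card_univ, Fintype.card_fin]
    _ ≤ _ := Finset.sum_le_sum fun x _ => h1 x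

lemma cycle_not_acyclic (n : ℕ) : ¬ (cycleGraph (n + 3)).IsAcyclic := fun h =>
  h _ cycleGraph.isCycle_cycle

lemma cycle_girth (n : ℕ) : (cycleGraph (n + 3)).girth = n + 3 := by
  classical
  obtain ⟨a, w, hw, hlen⟩ := exists_girth_eq_length.2 (cycle_not_acyclic n)
  have hle : (cycleGraph (n + 3)).girth ≤ n + 3 := by
    have := girth_le_length (cycleGraph.isCycle_cycle (n := n))
    rwa [cycleGraph.length_cycle] at this
  have h3 := three_le_girth (cycle_not_acyclic n)
  obtain ⟨c, hc⟩ := exists_cyc w hw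
  rw [← hlen] at hc
  set g := (cycleGraph (n + 3)).girth with hg
  -- the image of the cycle is closed under adjacency
  have hclosed : ∀ i v, (cycleGraph (n + 3)).Adj (c i) v → ∃ j, c j = v := by
    intro i v hv
    have hdeg : ((cycleGraph (n + 3)).neighborFinset (c i)).card = 2 :=
      cycleGraph_degree_three_le
    have h4 : c (i + g - 1) ∈ (cycleGraph (n + 3)).neighborFinset (c i) := by
      rw [mem_neighborFinset]
      have := hc.adj (i + g - 1)
      rw [show i + g - 1 + 1 = i + g by omega, hc.per] at this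
      exact this.symm
    have h5 : c (i + 1) ∈ (cycleGraph (n + 3)).neighborFinset (c i) := by
      rw [mem_neighborFinset]
      exact hc.adj i
    have h6 : c (i + 1) ≠ c (i + g - 1) := by
      intro he
      rw [show i + g - 1 = i + (g - 1) by omega] at he
      have := hc.inj' i 1 (g - 1) (by omega) (by omega) he
      omega
    have h7 : ({c (i + 1), c (i + g - 1)} : Finset (Fin (n + 3))) =
        (cycleGraph (n + 3)).neighborFinset (c i) := by
      apply Finset.eq_of_subset_of_card_le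
      · intro z hz
        rw [Finset.mem_insert, Finset.mem_singleton] at hz
        rcases hz with rfl | rfl
        · exact h5
        · exact h4
      · rw [hdeg, Finset.card_pair h6]
    have h8 : v ∈ (cycleGraph (n + 3)).neighborFinset (c i) := by
      rw [mem_neighborFinset]; exact hv
    rw [← h7, Finset.mem_insert, Finset.mem_singleton] at h8
    rcases h8 with h8 | h8
    · exact ⟨_, h8.symm⟩
    · exact ⟨_, h8.symm⟩
  have hwalk : ∀ u v : Fin (n + 3), (cycleGraph (n + 3)).Walk u v → (∃ i, c i = u) →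
      ∃ j, c j = v := by
    intro u v p
    induction p with
    | nil => exact fun h => h
    | cons h p ih =>
      rintro ⟨i, rfl⟩
      exact ih (hclosed i _ h)
  have hall : ∀ v : Fin (n + 3), ∃ j, c j = v := by
    intro v
    obtain ⟨p⟩ := (cycleGraph_connected (n := n + 2)).preconnected (c 0) v
    exact hwalk _ _ p ⟨0, rfl⟩
  have hsub : (univ : Finset (Fin (n + 3))) ⊆ (range g).image c := by
    intro z _
    obtain ⟨i, hi⟩ := hall z
    rw [Finset.mem_image]
    exact ⟨i % g, Finset.mem_range.2 (Nat.mod_lt _ (by omega)), by rw [hc.mod, hi]⟩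
  have h9 := Finset.card_le_card hsub
  have h10 := Finset.card_image_le (s := range g) (f := c)
  rw [Finset.card_univ, Fintype.card_fin] at h9
  rw [Finset.card_range] at h10
  omega

lemma iso_dist_le {V W : Type*} {G : SimpleGraph V} {H : SimpleGraph W} (e : G ≃g H)
    (hG : G.Connected) (u v : V) : H.dist (e u) (e v) ≤ G.dist u v := by
  obtain ⟨p, hp⟩ := hG.exists_walk_length_eq_dist u v
  rw [← hp]
  have := dist_le (p.map e.toHom)
  rwa [Walk.length_map] at this

lemma iso_dsum {V W : Type*} [Fintype V] [Fintype W] {G : SimpleGraph V} {H : SimpleGraph W}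
    (e : G ≃g H) (hG : G.Connected) : dsum G = dsum H := by
  have hH : H.Connected := e.connected_iff.1 hG
  have h1 : ∀ u v, G.dist u v = H.dist (e u) (e v) := by
    intro u v
    apply le_antisymm
    · have := iso_dist_le e.symm hH (e u) (e v)
      simpa using this
    · exact iso_dist_le e hG u v
  unfold dsum
  simp only [h1]
  rw [← Equiv.sum_comp e.toEquiv (fun x => ∑ y, H.dist x y)]
  refine Finset.sum_congr rfl fun x _ => ?_
  exact Equiv.sum_comp e.toEquiv (fun y => H.dist (e x) y)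

/-- If the girth is the number of vertices and the distance sum is extremal, the graph is a
cycle. -/
lemma iso_of_eq (n : ℕ) (hn : 3 ≤ n) (G : SimpleGraph (Fin n)) (hG : G.Connected) (c : ℕ → Fin n)
    (hc : Cyc G n c) (hs : n * (n ^ 2 / 4) ≤ dsum G) : Nonempty (G ≃g cycleGraph n) := by
  have hcard : Fintype.card (Fin n) = n := Fintype.card_fin n
  have hb := hc.base hG hcard
  have h1 : ∀ x ∈ (univ : Finset (Fin n)), ∑ y, G.dist x y = n ^ 2 / 4 := by
    refine (Finset.sum_eq_sum_iff_of_le (fun x _ => hb x)).1 (le_antisymm ?_ ?_)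
    · exact Finset.sum_le_sum fun x _ => hb x
    · rw [Finset.sum_const, smul_eq_mul, Finset.card_univ, hcard]
      exact hs
  have h2 : ∀ i t, t < n → G.dist (c i) (c (i + t)) = min t (n - t) := by
    intro i t ht
    have h3 := h1 (c i) (Finset.mem_univ _)
    rw [hc.sum_eq hcard i, ← sum_min] at h3
    exact (Finset.sum_eq_sum_iff_of_le
      (fun t ht => hc.dist_le' hG i t (Finset.mem_range.1 ht).le)).1 h3 t (Finset.mem_range.2 ht)
  have hbij : Function.Bijective (fun i : Fin n => c i.val) := by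
    rw [Fintype.bijective_iff_injective_and_card]
    exact ⟨fun i j hij => Fin.ext (hc.inj _ _ i.2 j.2 hij), rfl⟩
  have hkey : ∀ u v : Fin n, u < v → (G.Adj (c u) (c v) ↔ (cycleGraph n).Adj u v) := by
    intro u v huv
    have h3 := h2 u (v - u) (by omega)
    rw [show (u : ℕ) + (v - u) = v by have := Fin.lt_def.1 huv; omega] at h3
    rw [← dist_eq_one_iff_adj, h3, cycleGraph_adj']
    have h4 := fin_sub_val u v
    have h5 := fin_sub_val v u
    have h6 := u.2
    have h7 := v.2
    simp only [Fin.le_def, Fin.lt_def] at h4 h5 huv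
    omega
  refine ⟨SimpleGraph.Iso.symm ⟨Equiv.ofBijective _ hbij, ?_⟩⟩
  intro u v
  simp only [Equiv.ofBijective_apply]
  rcases lt_trichotomy u v with h | h | h
  · exact hkey u v h
  · subst h; simp
  · rw [G.adj_comm, (cycleGraph n).adj_comm]
    exact hkey v u h

/-- The value of `l * g` on `C_n`. -/
noncomputable def bound (n : ℕ) : ℝ :=
  if Even n then (n : ℝ) ^ 3 / (4 * ((n : ℝ) - 1)) else ((n : ℝ) ^ 2 + (n : ℝ)) / 4

lemma bound_eq (n : ℕ) (hn : 3 ≤ n) :
    bound n = ((n ^ 2 * (n ^ 2 / 4) : ℕ) : ℝ) / ((n : ℝ) * ((n : ℝ) - 1)) := by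
  have hn' : (3 : ℝ) ≤ n := by exact_mod_cast hn
  have h1 : (n : ℝ) ≠ 0 := by linarith
  have h2 : (n : ℝ) - 1 ≠ 0 := by linarith
  unfold bound
  split_ifs with h
  · obtain ⟨m, hm⟩ := h
    have h5 : n ^ 2 / 4 = m ^ 2 := by
      rw [hm, show (m + m) ^ 2 = 4 * m ^ 2 by ring]; omega
    have h6 : (n : ℝ) = m + m := by exact_mod_cast hm
    rw [h5]
    push_cast
    have h7 : (m : ℝ) ^ 2 = (n : ℝ) ^ 2 / 4 := by rw [h6]; ring
    rw [h7]
    field_simp
  · rw [Nat.not_even_iff_odd] at h
    obtain ⟨m, hm⟩ := h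
    have h5 : n ^ 2 / 4 = m ^ 2 + m := by
      rw [hm, show (2 * m + 1) ^ 2 = 4 * (m ^ 2 + m) + 1 by ring]; omega
    have h6 : (n : ℝ) = 2 * m + 1 := by exact_mod_cast hm
    rw [h5]
    push_cast
    have h7 : (m : ℝ) ^ 2 + m = ((n : ℝ) ^ 2 - 1) / 4 := by rw [h6]; ring
    rw [h7]
    field_simp
    ring

lemma avg_mul (n : ℕ) (_hn : 3 ≤ n) (G : SimpleGraph (Fin n)) :
    avgDist G * (G.girth : ℝ) = ((G.girth * dsum G : ℕ) : ℝ) / ((n : ℝ) * ((n : ℝ) - 1)) := by
  unfold avgDist dsum
  rw [Fintype.card_fin]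
  push_cast
  ring

/-- **MP_0edf05, Q1 (true).**  For every `n ≥ 3` and every connected graph `G` on `n` vertices
with a cycle, `l(G) * g(G)` is at most `n³/(4(n-1))` for even `n` and `(n²+n)/4` for odd `n`, with
equality if and only if `G` is the cycle `C_n`. -/
theorem result : ∀ n : ℕ, 3 ≤ n → ∀ G : SimpleGraph (Fin n), G.Connected → ¬ G.IsAcyclic →
    avgDist G * (G.girth : ℝ) ≤ (if Even n then (n : ℝ) ^ 3 / (4 * ((n : ℝ) - 1))
      else ((n : ℝ) ^ 2 + (n : ℝ)) / 4) ∧
    (avgDist G * (G.girth : ℝ) = (if Even n then (n : ℝ) ^ 3 / (4 * ((n : ℝ) - 1))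
      else ((n : ℝ) ^ 2 + (n : ℝ)) / 4) ↔ Nonempty (G ≃g cycleGraph n)) := by
  intro n hn G hG hac
  change avgDist G * (G.girth : ℝ) ≤ bound n ∧ (avgDist G * (G.girth : ℝ) = bound n ↔ _)
  have hn' : (3 : ℝ) ≤ n := by exact_mod_cast hn
  have hpos : 0 < (n : ℝ) * ((n : ℝ) - 1) := by nlinarith
  rw [bound_eq n hn, avg_mul n hn G, div_le_div_iff_of_pos_right hpos,
    div_left_inj' hpos.ne', Nat.cast_le, Nat.cast_inj]
  obtain ⟨a, w, hw, hlen⟩ := exists_girth_eq_length.2 hac
  obtain ⟨c, hc⟩ := exists_cyc w hw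
  rw [← hlen] at hc
  have h3 := three_le_girth hac
  have hgn : G.girth ≤ n := by
    have h4 : ((range G.girth).image c).card ≤ n := by
      have := Finset.card_le_univ ((range G.girth).image c)
      rwa [Fintype.card_fin] at this
    rw [Finset.card_image_of_injOn, Finset.card_range] at h4
    · exact h4
    · intro a ha b hb hab
      rw [Finset.coe_range, Set.mem_Iio] at ha hb
      exact hc.inj a b ha hb hab
  obtain ⟨k, hk⟩ : ∃ k, n = G.girth + k := ⟨n - G.girth, by omega⟩
  have hmain := (main G.girth h3 k (Fin n) G c hG hc (by rw [Fintype.card_fin]; exact hk)).2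
  have hle : G.girth * dsum G ≤ n ^ 2 * (n ^ 2 / 4) := by
    have h5 := gE_le G.girth k h3
    rw [← hk] at h5
    exact (Nat.mul_le_mul_left _ hmain).trans h5
  refine ⟨hle, ?_, ?_⟩
  · intro heq
    have hk0 : k = 0 := by
      by_contra hne
      have h5 := gE_lt G.girth k h3 (by omega)
      rw [← hk] at h5
      have h6 := Nat.mul_le_mul_left G.girth hmain
      omega
    have hg : G.girth = n := by omega
    rw [hg] at hc heq
    refine iso_of_eq n hn G hG c hc ?_
    have h7 : n * dsum G = n * (n * (n ^ 2 / 4)) := by rw [heq]; ring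
    exact (Nat.eq_of_mul_eq_mul_left (by omega) h7).ge
  · rintro ⟨e⟩
    obtain ⟨m, rfl⟩ : ∃ m, n = m + 3 := ⟨n - 3, by omega⟩
    apply le_antisymm hle
    rw [iso_dsum e hG, e.girth_eq, cycle_girth]
    have h8 := cycle_dsum m
    calc (m + 3) ^ 2 * ((m + 3) ^ 2 / 4) = (m + 3) * ((m + 3) * ((m + 3) ^ 2 / 4)) := by ring
      _ ≤ _ := Nat.mul_le_mul_left _ h8

end Pool.Agent.Results.MP_0edf05_co.ProductBound
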